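import Pool.Agent.Lib.MP_7ba13c_lc.Main

set_option autoImplicit false

namespace Pool.Agent.Results.MP_7ba13c_lc.Perfect

open Pool.Agent.Lib.MP_7ba13c_lc

universe u v

/-- For every field `P` the variety of associative `P`-algebras is logically perfect: every free
algebra of finite rank is logically homogeneous. -/
theorem result (P : Type u) [Field P] (X : Type v) [Finite X] :
    LogicallyHomogeneous P (FreeAss P X) :=
  homogeneous

end Pool.Agent.Results.MP_7ba13c_lc.Perfect
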