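import Pool.Agent.Lib.MP_7ba13c_lc.Main

set_option autoImplicit false

namespace Pool.Agent.Results.MP_7ba13c_lc.Regular

open Pool.Agent.Lib.MP_7ba13c_lc

universe u v w

/-- For every field `P` the variety of associative `P`-algebras is logically regular: every
associative `P`-algebra isotypic to a free algebra of finite rank is isomorphic to it. -/
theorem result (P : Type u) [Field P] (X : Type v) [Finite X]
    (H : Type w) [NonUnitalRing H] [Module P H] [IsScalarTower P H H] [SMulCommClass P H H]
    (h : Isotypic P H (FreeAss P X)) :
    Nonempty (FirstOrder.Language.Equiv (algLang P) H (FreeAss P X)) :=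
  separable H h

end Pool.Agent.Results.MP_7ba13c_lc.Regular
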